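import Pool.Agent.AT8.Stmts3

/-! Squad AT8, row HKX: a sufficient condition for the heights to be smaller than `k`. -/

open scoped BigOperators

noncomputable section

namespace Pool.Agent.PP.T8.H20

open Pool.Agent.Helper51_AWC Pool.Agent.Helper79_WRA Pool.Agent.PP Pool.Agent.PP.KF
open Pool.Agent.PP.K9 Pool.Agent.PP.K9.H97 Pool.Agent.PP.H75 Pool.Agent.PP.T3 Pool.Agent.PP.T2

theorem cen_le_Tg {G : Type} [Group G] [Finite G] {F : Type} [Field F] {V : Subgroup G} {γ : G → F}
    (hγ : Bx (Subgroup.centralizer (V : Set G)) γ) :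
    Subgroup.centralizer (V : Set G) ≤ Tg V γ := by
  intro c hc
  refine Subgroup.mem_inf.2 ⟨?_, ?_⟩
  · rw [Subgroup.mem_normalizer_iff]
    intro h
    constructor
    · intro hh
      have := (Subgroup.mem_centralizer_iff.1 hc) h hh
      rw [← this, mul_inv_cancel_right]
      exact hh
    · intro hh
      have := (Subgroup.mem_centralizer_iff.1 hc) _ hh
      have e : h = c * h * c⁻¹ := by
        have e2 : c * h * c⁻¹ * c = c * (c * h * c⁻¹) := this
        have e3 : c * h = c * (c * h * c⁻¹) := by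
          rw [← e2]
          group
        exact mul_left_cancel e3
      rw [e]
      exact hh
  · exact (cj_eq_iff _ _).1 (hγ.ix.inv hc)

/-- the number of the elements of `V - 1` which are not regular -/
theorem count (ℓ : ℕ) [hℓ : Fact ℓ.Prime] (F : Type) [Field F] (G : Type) [Group G] [Finite G]
    (e : G → F) (V : Subgroup G) (γ : G → F) (hL : Ld ℓ e V γ) (hV : V ≠ ⊥) :
    ∃ v, 1 ≤ v ∧ Nat.card V = ℓ * v ∧
      ℓ * v - 1 ≤ {u | Rg V γ u}.ncard + (ix V γ - 1) * (v - 1) := by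
  classical
  have hp : ℓ.Prime := hℓ.out
  set C := Subgroup.centralizer (V : Set G) with hC
  set T := Tg V γ with hT
  have hCT : C ≤ T := cen_le_Tg hL.gam
  have hE : ix V γ = Nat.card (T ⧸ C.subgroupOf T) := rfl
  set E := ix V γ with hEd
  have hE1 : 1 ≤ E := by
    rw [hE]
    exact Nat.card_pos
  haveI := Fintype.ofFinite G
  haveI : Fintype (T ⧸ C.subgroupOf T) := Fintype.ofFinite _
  -- the order of V
  obtain ⟨a, ha⟩ := (IsPGroup.iff_card.1 hL.tp.pg)
  have ha0 : a ≠ 0 := by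
    intro h
    rw [h, pow_zero] at ha
    exact hV (Subgroup.card_eq_one.1 ha)
  obtain ⟨b, rfl⟩ := Nat.exists_eq_succ_of_ne_zero ha0
  set v := ℓ ^ b with hv
  have hVv : Nat.card V = ℓ * v := by rw [ha, hv, Nat.succ_eq_add_one, pow_succ, mul_comm]
  have hv1 : 1 ≤ v := Nat.one_le_iff_ne_zero.2 (pow_ne_zero _ hp.ne_zero)
  -- the fixed subgroups
  let W : (T ⧸ C.subgroupOf T) → Subgroup G := fun q => V ⊓ Cu ((q.out : T) : G)
  have hW : ∀ q, q ≠ ((1 : T) : T ⧸ C.subgroupOf T) → Nat.card (W q) ≤ v := by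
    intro q hq
    have h1 : Nat.card (W q) ∣ ℓ ^ (b + 1) := by
      rw [← Nat.succ_eq_add_one, ← ha]
      exact Subgroup.card_dvd_of_le inf_le_left
    obtain ⟨i, hi, hi2⟩ := (Nat.dvd_prime_pow hp).1 h1
    rw [hi2, hv]
    rcases Nat.lt_or_ge i (b + 1) with h2 | h2
    · exact Nat.pow_le_pow_right hp.pos (by omega)
    · exfalso
      have h3 : i = b + 1 := le_antisymm hi h2
      have h4 : Nat.card (W q) = Nat.card V := by rw [hi2, h3, ha]
      have h5 : W q = V := Subgroup.eq_of_le_of_card_ge inf_le_left h4.ge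
      apply hq
      have h6 : ((q.out : T) : G) ∈ C := by
        refine Subgroup.mem_centralizer_iff.2 ?_
        intro w hw
        have h7 : w ∈ W q := by
          rw [h5]
          exact hw
        have h8 := (Subgroup.mem_inf.1 h7).2
        exact (Subgroup.mem_centralizer_iff.1 h8 _ rfl).symm
      have h9 : ((q.out : T) : T ⧸ C.subgroupOf T) = ((1 : T) : T ⧸ C.subgroupOf T) := by
        rw [QuotientGroup.eq, mul_one, Subgroup.inv_mem_iff, Subgroup.mem_subgroupOf]
        exact h6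
      rw [← h9]
      exact (Quotient.out_eq' q).symm
  -- the sets
  let A : Finset G := Finset.univ.filter (fun u => u ∈ V ∧ u ≠ 1)
  let R : Finset G := Finset.univ.filter (fun u => Rg V γ u)
  let S : Finset G := (Finset.univ.filter (fun q : T ⧸ C.subgroupOf T =>
    q ≠ ((1 : T) : T ⧸ C.subgroupOf T))).biUnion
      (fun q => Finset.univ.filter (fun u => u ∈ W q ∧ u ≠ 1))
  have hR : {u | Rg V γ u}.ncard = R.card := by
    rw [← Set.ncard_coe_finset]
    congr 1
    ext u
    simp [R]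
  have cardsub : ∀ H : Subgroup G, (Finset.univ.filter (fun u => u ∈ H ∧ u ≠ 1)).card
      = Nat.card H - 1 := by
    intro H
    have h1 : (Finset.univ.filter (fun u => u ∈ H ∧ u ≠ 1))
        = (Finset.univ.filter (fun u : G => u ∈ H)).erase 1 := by
      ext u
      simp only [Finset.mem_filter, Finset.mem_univ, true_and, Finset.mem_erase, ne_eq]
      tauto
    rw [h1, Finset.card_erase_of_mem (by simp [H.one_mem])]
    congr 1
    rw [← Set.ncard_coe_finset]
    have : ((Finset.univ.filter (fun u : G => u ∈ H) : Finset G) : Set G) = (H : Set G) := by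
      ext u
      simp
    rw [this, Set.ncard_eq_toFinset_card' , ← Nat.card_eq_card_toFinset]
    rfl
  have hA : A.card = Nat.card V - 1 := cardsub V
  have hsub : A ⊆ R ∪ S := by
    intro u hu
    simp only [A, Finset.mem_filter, Finset.mem_univ, true_and] at hu
    by_cases hr : Rg V γ u
    · exact Finset.mem_union_left _ (by simp [R, hr])
    · apply Finset.mem_union_right
      have h1 : ¬ (Tg V γ ⊓ Cu u ≤ Subgroup.centralizer (V : Set G)) := by
        intro h
        exact hr ⟨hu.1, hu.2, h⟩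
      rw [SetLike.not_le_iff_exists] at h1
      obtain ⟨t, ht, htC⟩ := h1
      obtain ⟨htT, htu⟩ := Subgroup.mem_inf.1 ht
      let t' : T := ⟨t, htT⟩
      let q : T ⧸ C.subgroupOf T := (t' : T ⧸ C.subgroupOf T)
      have hq : q ≠ ((1 : T) : T ⧸ C.subgroupOf T) := by
        intro h
        rw [QuotientGroup.eq, mul_one, Subgroup.inv_mem_iff, Subgroup.mem_subgroupOf] at h
        exact htC h
      have hc : ((t' : T)⁻¹ * q.out) ∈ C.subgroupOf T := by
        rw [← QuotientGroup.eq]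
        exact (Quotient.out_eq' q).symm
      rw [Subgroup.mem_subgroupOf] at hc
      simp only [S, Finset.mem_biUnion, Finset.mem_filter, Finset.mem_univ, true_and]
      refine ⟨q, hq, ?_, hu.2⟩
      refine Subgroup.mem_inf.2 ⟨hu.1, ?_⟩
      rw [Subgroup.mem_centralizer_iff]
      intro w hw
      rw [Set.mem_singleton_iff] at hw
      rw [hw]
      have h2 : u * t = t * u := Subgroup.mem_centralizer_iff.1 htu u rfl
      have h3 := Subgroup.mem_centralizer_iff.1 hc u hu.1
      have h4 : ((q.out : T) : G) = t * (((t' : T)⁻¹ * q.out : T) : G) := by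
        simp [t']
      rw [h4]
      calc t * (((t' : T)⁻¹ * q.out : T) : G) * u
          = t * ((((t' : T)⁻¹ * q.out : T) : G) * u) := by group
        _ = t * (u * (((t' : T)⁻¹ * q.out : T) : G)) := by rw [h3]
        _ = (t * u) * (((t' : T)⁻¹ * q.out : T) : G) := by group
        _ = (u * t) * (((t' : T)⁻¹ * q.out : T) : G) := by rw [h2]
        _ = u * (t * (((t' : T)⁻¹ * q.out : T) : G)) := by group
  have hS : S.card ≤ (E - 1) * (v - 1) := by
    have h1 : S.card ≤ ∑ q ∈ (Finset.univ.filter (fun q : T ⧸ C.subgroupOf T =>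
        q ≠ ((1 : T) : T ⧸ C.subgroupOf T))), (v - 1) := by
      refine le_trans Finset.card_biUnion_le (Finset.sum_le_sum fun q hq => ?_)
      rw [cardsub]
      have := hW q (by simpa using hq)
      omega
    rw [Finset.sum_const, smul_eq_mul] at h1
    have h2 : (Finset.univ.filter (fun q : T ⧸ C.subgroupOf T =>
        q ≠ ((1 : T) : T ⧸ C.subgroupOf T))).card = E - 1 := by
      rw [Finset.filter_ne', Finset.card_erase_of_mem (Finset.mem_univ _), Finset.card_univ, hE,
        Nat.card_eq_fintype_card]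
    rw [h2] at h1
    exact h1
  have hfin : Nat.card V - 1 ≤ R.card + (E - 1) * (v - 1) := by
    rw [← hA]
    exact le_trans (Finset.card_le_card hsub) (le_trans (Finset.card_union_le _ _) (by omega))
  refine ⟨v, hv1, hVv, ?_⟩
  rw [hR, ← hVv]
  exact hfin

theorem arith1 (ℓ v E r : ℕ) (h2 : 2 ≤ ℓ) (h3 : E < ℓ) (hE : 1 ≤ E) (hv : 1 ≤ v)
    (h : ℓ * v - 1 ≤ r + (E - 1) * (v - 1)) : E * v ≤ ℓ * r := by
  obtain ⟨E, rfl⟩ : ∃ E', E = E' + 1 := ⟨E - 1, by omega⟩
  obtain ⟨v, rfl⟩ : ∃ v', v = v' + 1 := ⟨v - 1, by omega⟩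
  simp only [Nat.add_sub_cancel] at h
  have h6 : ℓ * (v + 1) ≤ r + E * v + 1 := by
    have : 1 ≤ ℓ * (v + 1) := Nat.one_le_iff_ne_zero.2 (mul_ne_zero (by omega) (by omega))
    omega
  obtain ⟨c, rfl⟩ : ∃ c, ℓ = E + 2 + c := ⟨ℓ - (E + 2), by omega⟩
  have h7 : (2 + c) * (v + 1) + E ≤ r + 1 := by nlinarith
  have h8 : (1 + c) * (v + 1) + v + E ≤ r := by nlinarith
  have h9 : (E + 2 + c) * ((1 + c) * (v + 1) + v + E) ≤ (E + 2 + c) * r := Nat.mul_le_mul_left _ h8
  have h10 : (E + 1) * (v + 1) ≤ (E + 2 + c) * ((1 + c) * (v + 1) + v + E) := by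
    have h11 : v + 1 ≤ (1 + c) * (v + 1) + v + E := by nlinarith [Nat.zero_le (c * (v + 1))]
    exact Nat.mul_le_mul (by omega) h11
  exact h10.trans h9

theorem arith2 (n E q : ℕ) (h1 : E + 1 ≤ n) (h2 : E + 1 ≤ q) : E * n ≤ q * (n - 1) := by
  obtain ⟨m, rfl⟩ : ∃ m, n = m + 1 := ⟨n - 1, by omega⟩
  rw [Nat.add_sub_cancel]
  rcases le_total (m + 1) q with h | h
  · have h3 : E ≤ m := by omega
    calc E * (m + 1) ≤ m * (m + 1) := Nat.mul_le_mul_right _ h3
      _ = (m + 1) * m := mul_comm _ _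
      _ ≤ q * m := Nat.mul_le_mul_right _ h
  · obtain ⟨p, rfl⟩ : ∃ p, q = p + 1 := ⟨q - 1, by omega⟩
    have h3 : E ≤ p := by omega
    calc E * (m + 1) ≤ p * (m + 1) := Nat.mul_le_mul_right _ h3
      _ = p * m + p := by ring
      _ ≤ p * m + m := by omega
      _ = (p + 1) * m := by ring

theorem ix_free {ℓ : ℕ} [Fact ℓ.Prime] {F : Type} [Field F] {G : Type} [Group G] [Finite G]
    {e : G → F} {V : Subgroup G} {γ : G → F} (hL : Ld ℓ e V γ) (hV : V ≠ ⊥) (hF : Fr V γ) :
    ix V γ + 1 ≤ Nat.card V := by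
  classical
  obtain ⟨u, hu, hu1⟩ : ∃ u : G, u ∈ V ∧ u ≠ 1 := by
    by_contra hno
    push Not at hno
    exact hV ((Subgroup.eq_bot_iff_forall V).2 hno)
  have hE : ix V γ = Nat.card (Tg V γ ⧸
    (Subgroup.centralizer (V : Set G)).subgroupOf (Tg V γ)) := rfl
  haveI := Fintype.ofFinite V
  haveI : Fintype (Tg V γ ⧸ (Subgroup.centralizer (V : Set G)).subgroupOf (Tg V γ)) :=
    Fintype.ofFinite _
  have hmem : ∀ t : Tg V γ, (t : G) * u * (t : G)⁻¹ ∈ V := fun t =>
    (Subgroup.mem_normalizer_iff.1 (Subgroup.mem_inf.1 t.2).1 u).1 hu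
  let φ : Option (Tg V γ ⧸ (Subgroup.centralizer (V : Set G)).subgroupOf (Tg V γ)) → V :=
    fun o => o.elim 1 (fun q => ⟨(q.out : G) * u * (q.out : G)⁻¹, hmem q.out⟩)
  have hφ : Function.Injective φ := by
    have h1 : ∀ q : Tg V γ ⧸ (Subgroup.centralizer (V : Set G)).subgroupOf (Tg V γ),
        φ (some q) ≠ φ none := by
      intro q h
      have h2 : (q.out : G) * u * (q.out : G)⁻¹ = 1 := congrArg Subtype.val h
      apply hu1
      have h3 : u = (q.out : G)⁻¹ * ((q.out : G) * u * (q.out : G)⁻¹) * (q.out : G) := by group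
      rw [h3, h2]
      group
    rintro (_ | q) (_ | q') h
    · rfl
    · exact absurd h.symm (h1 q')
    · exact absurd h (h1 q)
    · congr 1
      have h2 : (q.out : G) * u * (q.out : G)⁻¹ = (q'.out : G) * u * (q'.out : G)⁻¹ :=
        congrArg Subtype.val h
      have h3 : ((q.out : Tg V γ)⁻¹ * q'.out : Tg V γ) ∈
          (Subgroup.centralizer (V : Set G)).subgroupOf (Tg V γ) := by
        rw [Subgroup.mem_subgroupOf]
        refine hF _ ((q.out : Tg V γ)⁻¹ * q'.out : Tg V γ).2 u hu hu1 ?_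
        push_cast
        calc ((q.out : Tg V γ) : G)⁻¹ * ((q'.out : Tg V γ) : G) * u
            = ((q.out : Tg V γ) : G)⁻¹ * (((q'.out : Tg V γ) : G) * u *
                ((q'.out : Tg V γ) : G)⁻¹) * ((q'.out : Tg V γ) : G) := by group
          _ = ((q.out : Tg V γ) : G)⁻¹ * (((q.out : Tg V γ) : G) * u *
                ((q.out : Tg V γ) : G)⁻¹) * ((q'.out : Tg V γ) : G) := by rw [h2]
          _ = u * (((q.out : Tg V γ) : G)⁻¹ * ((q'.out : Tg V γ) : G)) := by group
      have h4 := QuotientGroup.eq.2 h3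
      rw [← Quotient.out_eq' q, ← Quotient.out_eq' q']
      exact h4
  have h5 := Fintype.card_le_of_injective φ hφ
  rw [Fintype.card_option] at h5
  rw [hE, Nat.card_eq_fintype_card, Nat.card_eq_fintype_card]
  exact h5

theorem hkx (hX : XctStmt) : HkxStmt := by
  intro ℓ hℓ F _ hF G _ _ e V γ hL hi a k hk ha hexp hy hHk
  have hp : ℓ.Prime := hℓ.out
  have hV : V ≠ ⊥ := by
    rintro rfl
    have h1 : Monoid.exponent (⊥ : Subgroup G) = 1 := Monoid.exp_eq_one_of_subsingleton
    rw [h1] at hexp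
    have h2 : 1 < ℓ ^ a := Nat.one_lt_pow (by omega) hp.one_lt
    omega
  have hE1 : 1 ≤ ix V γ := by
    have : 0 < Nat.card (Tg V γ ⧸
      (Subgroup.centralizer (V : Set G)).subgroupOf (Tg V γ)) := Nat.card_pos
    exact this
  rcases hHk with h | h | ⟨h, hFr⟩
  · obtain ⟨y, hy⟩ := hy
    have h1 := hX ℓ F hF G e V γ hL hi a 1 one_pos ha hexp y hy
    rw [pow_one] at h1
    calc ix V γ * Nat.card V ≤ ix V γ * (ℓ ^ (2 * k) * Nat.card (Uw ℓ V)) :=
          Nat.mul_le_mul_left _ h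
      _ = ℓ ^ (2 * k) * (ix V γ * Nat.card (Uw ℓ V)) := by ring
      _ ≤ _ := Nat.mul_le_mul_left _ h1
  · obtain ⟨v, hv, hc, h1⟩ := count ℓ F G e V γ hL hV
    have h2 := arith1 ℓ v (ix V γ) _ hp.two_le h hE1 hv h1
    rw [hc]
    have h3 : ℓ ^ 2 ≤ ℓ ^ (2 * k) := Nat.pow_le_pow_right hp.pos (by omega)
    calc ix V γ * (ℓ * v) = ℓ * (ix V γ * v) := by ring
      _ ≤ ℓ * (ℓ * {u | Rg V γ u}.ncard) := Nat.mul_le_mul_left _ h2
      _ = ℓ ^ 2 * {u | Rg V γ u}.ncard := by ring
      _ ≤ _ := Nat.mul_le_mul_right _ h3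
  · have h1 := ix_free hL hV hFr
    have h2 : {u | Rg V γ u}.ncard = Nat.card V - 1 := by
      have h3 : {u | Rg V γ u} = (V : Set G) \ {1} := by
        ext u
        simp only [Set.mem_ofPred_eq, Set.mem_sdiff, SetLike.mem_coe, Set.mem_singleton_iff]
        constructor
        · intro hu
          exact ⟨hu.1, hu.2.1⟩
        · rintro ⟨hu, hu1⟩
          refine ⟨hu, hu1, fun t ht => ?_⟩
          have h4 := Subgroup.mem_inf.1 ht
          exact hFr t h4.1 u hu hu1 (Subgroup.mem_centralizer_iff.1 h4.2 u rfl).symm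
      rw [h3, Set.ncard_sdiff_singleton_of_mem V.one_mem]
      rfl
    rw [h2]
    exact arith2 _ _ _ h1 (by omega)

end Pool.Agent.PP.T8.H20
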